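import Pool.Agent.Run7.h914.IFm.Bez
import Pool.Agent.Run7.h914.IFm.G3

/-!
# The gcd recursion for prime triples at linear forms in the coordinates of the points of plane curves modulo primes

`f(N)` is the first zero of the recursion `a_N` of the problem; `N - f(N)` is its defect.

Let `p` be a large prime, let `F(x, y) = 0` be ANY absolutely irreducible plane curve over the field with `p` elements,
not a line, of degree at most `p ^ (δ / 50)`, and consider the points of the curve in a box with sides between `p ^ δ` and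
`p` and of area at least `p ^ (3 / 2 + δ)`.  Let `N = c₁ x + c₂ y + c₀` be ANY linear form with coprime coefficients
`c₁, c₂` of absolute value at most `p ^ (δ / 20)` (`c₀` is arbitrary).  Then the proportion of the points `(x, y)` with
`N ≥ 6` and `N - f(N) ≤ H` is at most `C H / log ^ 3 p`, for every `H ≥ 1`.  So `N - f(N) > log ^ 3 p / ψ(p)` for almost
all points of every such curve in every such box, if `ψ` tends to infinity.

Proof.  The twisted sums `∑ e(α N)` over the points in the box are small unless `α` is close to an integer: completion,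
with the twist `e(α c_j x)`, whose Fourier coefficients modulo `p` are those of a geometric progression (library `IFm.Tw`),
and Weil's bound for the curve (proved in Lean, `exp_curve`); if `α` is far from the integers then so is `α c₁` or
`α c₂`.  Hence `N` is equidistributed in the residue classes of all moduli up to a power of `p`, and `N - f(N) ≤ H` forces
`N - j + 1, N - j + 3, N - j + 7` to be prime for some `j ≤ H`: the fundamental lemma of the sieve (helper90, helper844).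
-/

set_option autoImplicit false

open Finset Filter Polynomial

namespace Pool.Agent.Results.MP_3f8e47_nt.PointsOfPlaneCurves

/-- The 3-periodic sequence `2, 6, 0, 2, 6, 0, …` (indexed from 1). -/
def b (n : ℕ) : ℕ := if n % 3 = 1 then 2 else if n % 3 = 2 then 6 else 0

/-- the recursion `a_N`: `a_N(1) = N - 6`, `a_N(n) = a_N(n-1) - gcd(a_N(n-1), n + b(n))` for
`n ≥ 2` (and `a_N(0) = 0`, not used) -/
noncomputable def a (N : ℕ) : ℕ → ℤ
  | 0 => 0
  | 1 => (N : ℤ) - 6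
  | (n + 2) => a N (n + 1) - ((Int.gcd (a N (n + 1)) ((n + 2 + b (n + 2) : ℕ) : ℤ) : ℕ) : ℤ)

/-- `f(N)`: the least `n ≥ 1` with `a_N(n) = 0` -/
noncomputable def f (N : ℕ) : ℕ := sInf {n : ℕ | 1 ≤ n ∧ a N n = 0}

/-- `N ≥ 6` and `N - f(N) ≤ H`. -/
def SmallDefect (H : ℕ) (N : ℤ) : Prop := 6 ≤ N ∧ N.toNat ≤ f N.toNat + H

/-- The polynomial `F`, a polynomial in `y` whose coefficients are polynomials in `x`, is irreducible over
the algebraic closure of the field with `p` elements. -/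
def AbsIrreducible (p : ℕ) [Fact p.Prime] (F : (ZMod p)[X][X]) : Prop :=
  Irreducible (F.map (mapRingHom (algebraMap (ZMod p) (AlgebraicClosure (ZMod p)))))

/-- The total degree of `F` is at most `d`. -/
def DegreeLE {p : ℕ} (F : (ZMod p)[X][X]) (d : ℕ) : Prop :=
  ∀ i j, d < i + j → (F.coeff i).coeff j = 0

/-- The integer points of the box `(M₁, M₁ + L₁] × (M₂, M₂ + L₂]` on the curve `F = 0` modulo `p`. -/
def CurvePoints {p : ℕ} (F : (ZMod p)[X][X]) (M₁ M₂ : ℤ) (L₁ L₂ : ℕ) : Set (ℤ × ℤ) :=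
  {z | (M₁ < z.1 ∧ z.1 ≤ M₁ + L₁) ∧ (M₂ < z.2 ∧ z.2 ≤ M₂ + L₂) ∧ F.evalEval (z.1 : ZMod p) (z.2 : ZMod p) = 0}

lemma a_eq (N n : ℕ) : a N n = Run7.h914.IFm.G3.a N n := by
  induction n using Nat.strong_induction_on with
  | _ n ih =>
    match n with
    | 0 => rw [a, Run7.h914.IFm.G3.a]
    | 1 => rw [a, Run7.h914.IFm.G3.a]
    | n + 2 =>
      rw [a, Run7.h914.IFm.G3.a, ih (n + 1) (by omega)]
      rfl

lemma f_eq (N : ℕ) : f N = Run7.h914.IFm.G3.f N := by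
  unfold f Run7.h914.IFm.G3.f
  simp only [a_eq]

lemma bd : Run7.h914.IFm.FamBd SmallDefect (fun H : ℕ => (H : ℝ)) 3 := by
  have h : SmallDefect = fun (H : ℕ) (N : ℤ) => 6 ≤ N ∧ N.toNat ≤ Run7.h914.IFm.G3.f N.toNat + H := by
    funext H N
    unfold SmallDefect
    rw [f_eq]
  rw [h]
  obtain ⟨C, hC, T₀, h1⟩ := Run7.h914.IFm.G3.fam
  refine ⟨C, hC, T₀, fun T hT ι s v hv H hH => ?_⟩
  have h2 := h1 T hT ι s v hv H hH
  convert h2

/-- **The defect of the recursion at linear forms in the coordinates of the points of plane curves modulo primes.** -/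
theorem result (δ : ℝ) (hδ : 0 < δ) (hδ1 : δ ≤ 1) :
    ∃ C : ℝ, 0 < C ∧ ∃ p₀ : ℕ, ∀ (p : ℕ) [Fact p.Prime], p₀ ≤ p →
    ∀ (d : ℕ) (F : (ZMod p)[X][X]), (d : ℝ) ≤ (p : ℝ) ^ (δ / 50) → DegreeLE F d → ¬ DegreeLE F 1 →
      AbsIrreducible p F →
    ∀ (M₁ M₂ : ℤ) (L₁ L₂ : ℕ), (p : ℝ) ^ δ ≤ L₁ → L₁ ≤ p → (p : ℝ) ^ δ ≤ L₂ → L₂ ≤ p →
      (p : ℝ) ^ (3 / 2 + δ) ≤ L₁ * L₂ →
    ∀ (c₁ c₂ c₀ : ℤ), IsCoprime c₁ c₂ → |(c₁ : ℝ)| ≤ (p : ℝ) ^ (δ / 20) → |(c₂ : ℝ)| ≤ (p : ℝ) ^ (δ / 20) →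
    ∀ H : ℕ, 1 ≤ H →
      (Set.ncard {z ∈ CurvePoints F M₁ M₂ L₁ L₂ | SmallDefect H (c₁ * z.1 + c₂ * z.2 + c₀)} : ℝ) ≤
        C * H * (Set.ncard (CurvePoints F M₁ M₂ L₁ L₂) / Real.log p ^ 3) := by
  obtain ⟨C, hC, p₀, h⟩ := Run7.h914.IFm.curve_bad2 SmallDefect (fun H : ℕ => (H : ℝ)) 3 bd δ hδ hδ1
  refine ⟨C, hC, p₀, ?_⟩
  intro p _ hp d F hd hF hF1 hirr M₁ M₂ L₁ L₂ l1 l2 l3 l4 hV c₁ c₂ c₀ hco hc1 hc2 H hH
  have hex : ∃ i j, 2 ≤ i + j ∧ (F.coeff i).coeff j ≠ 0 := by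
    by_contra hc
    push Not at hc
    exact hF1 fun i j hij => hc i j (by omega)
  have key := h p hp d F hd hF hex hirr M₁ M₂ L₁ L₂ l1 l2 l3 l4 hV c₁ c₂ c₀ hco hc1 hc2 H hH
  have e : {z ∈ CurvePoints F M₁ M₂ L₁ L₂ | SmallDefect H (c₁ * z.1 + c₂ * z.2 + c₀)} =
      {z : ℤ × ℤ | (M₁ < z.1 ∧ z.1 ≤ M₁ + L₁) ∧ (M₂ < z.2 ∧ z.2 ≤ M₂ + L₂) ∧
        evalEval (z.1 : ZMod p) (z.2 : ZMod p) F = 0 ∧ SmallDefect H (c₁ * z.1 + c₂ * z.2 + c₀)} := by
    ext z
    simp only [CurvePoints, Set.mem_setOf_eq, and_assoc]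
  rw [e]
  exact key

end Pool.Agent.Results.MP_3f8e47_nt.PointsOfPlaneCurves
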