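import Pool.Agent.Run7.h914.IFm.Bez
import Pool.Agent.Run7.h914.IFm.G3

/-!
# The gcd recursion for prime triples at linear forms in the solutions of systems modulo primes

`f(N)` is the first zero of the recursion `a_N` of the problem; `N - f(N)` is its defect.

Let `p` be a large prime, `n > 2 k`, and let `P_ij` (`i ≤ n`, `j ≤ k`) be ANY polynomials over the field with `p` elements,
of degrees at most `p ^ (δ / (50 n))`, such that for every `i` no nontrivial linear combination of `P_i1, …, P_ik` is of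
the form `a X + c`.  Consider the solutions modulo `p` of the system of Waring-Vinogradov type

  `P_1j(x_1) + … + P_nj(x_n) ≡ b_j   (j = 1, …, k)`

in a box with sides between `p ^ δ` and `p` and of volume at least `p ^ (n / 2 + k + δ)`, and a linear form
`N = c₁ x₁ + … + c_n x_n + c₀` whose coefficients satisfy `∑ u_j c_j = 1` with integers `u_j`, `∑ |u_j| ≤ p ^ (δ / 16)`.
(1) The proportion of the solutions with `N ≥ 6` and `N - f(N) ≤ H` is at most `C H / log ^ 3 p`, for every `H ≥ 1`.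
(2) In particular this holds for the representations of every residue `b` modulo `p` as a sum of `n ≥ 3` `m`-th powers
(`m ≥ 2`) of integers of any intervals of length `L`, `p ^ (1 / 2 + 1 / n + δ) ≤ L ≤ p`.

Proof.  The twisted sums `∑ e(α N)` over the solutions in the box are small unless `α` is close to an integer: completion
with the twists (library `IFm.Tw`) and Weil's bound.  Hence `N` is equidistributed in the residue classes of all moduli up
to a power of `p`, and `N - f(N) ≤ H` forces `N - j + 1, N - j + 3, N - j + 7` to be prime for some `j ≤ H`: the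
fundamental lemma of the sieve (helper90, helper844).
-/

set_option autoImplicit false

open Finset Filter Polynomial

namespace Pool.Agent.Results.MP_3f8e47_nt.SystemsModP

/-- The 3-periodic sequence `2, 6, 0, 2, 6, 0, …` (indexed from 1). -/
def b (n : ℕ) : ℕ := if n % 3 = 1 then 2 else if n % 3 = 2 then 6 else 0

/-- the recursion `a_N`: `a_N(1) = N - 6`, `a_N(n) = a_N(n-1) - gcd(a_N(n-1), n + b(n))` for
`n ≥ 2` (and `a_N(0) = 0`, not used) -/
noncomputable def a (N : ℕ) : ℕ → ℤ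
  | 0 => 0
  | 1 => (N : ℤ) - 6
  | (n + 2) => a N (n + 1) - ((Int.gcd (a N (n + 1)) ((n + 2 + b (n + 2) : ℕ) : ℤ) : ℕ) : ℤ)

/-- `f(N)`: the least `n ≥ 1` with `a_N(n) = 0` -/
noncomputable def f (N : ℕ) : ℕ := sInf {n : ℕ | 1 ≤ n ∧ a N n = 0}

/-- `N ≥ 6` and `N - f(N) ≤ H`. -/
def SmallDefect (H : ℕ) (N : ℤ) : Prop := 6 ≤ N ∧ N.toNat ≤ f N.toNat + H

/-- The integer points of the box `∏ (M_i, M_i + L_i]` which are solutions modulo `p` of the system `∑ᵢ P_ij(z_i) = b_j`. -/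
def Solutions {p n k : ℕ} (P : Fin n → Fin k → (ZMod p)[X]) (b : Fin k → ZMod p) (M : Fin n → ℤ) (L : Fin n → ℕ) :
    Set (Fin n → ℤ) :=
  {z | (∀ i, M i < z i ∧ z i ≤ M i + L i) ∧ ∀ j, ∑ i, (P i j).eval (z i : ZMod p) = b j}

/-- There are integers `u_j` with `∑ u_j c_j = 1` and `∑ |u_j| ≤ B`. -/
def Primitive {n : ℕ} (B : ℝ) (c : Fin n → ℤ) : Prop :=
  ∃ u : Fin n → ℤ, ∑ j, u j * c j = 1 ∧ (∑ j, |(u j : ℝ)|) ≤ B

lemma a_eq (N n : ℕ) : a N n = Run7.h914.IFm.G3.a N n := by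
  induction n using Nat.strong_induction_on with
  | _ n ih =>
    match n with
    | 0 => rw [a, Run7.h914.IFm.G3.a]
    | 1 => rw [a, Run7.h914.IFm.G3.a]
    | n + 2 =>
      rw [a, Run7.h914.IFm.G3.a, ih (n + 1) (by omega)]
      rfl

lemma f_eq (N : ℕ) : f N = Run7.h914.IFm.G3.f N := by
  unfold f Run7.h914.IFm.G3.f
  simp only [a_eq]

lemma bd : Run7.h914.IFm.FamBd SmallDefect (fun H : ℕ => (H : ℝ)) 3 := by
  have h : SmallDefect = fun (H : ℕ) (N : ℤ) => 6 ≤ N ∧ N.toNat ≤ Run7.h914.IFm.G3.f N.toNat + H := by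
    funext H N
    unfold SmallDefect
    rw [f_eq]
  rw [h]
  obtain ⟨C, hC, T₀, h1⟩ := Run7.h914.IFm.G3.fam
  refine ⟨C, hC, T₀, fun T hT ι s v hv H hH => ?_⟩
  have h2 := h1 T hT ι s v hv H hH
  convert h2

theorem main (n k : ℕ) (hn : 2 * k < n) (δ : ℝ) (hδ : 0 < δ) (hδ1 : δ ≤ 1) :
    ∃ K : ℝ, 0 < K ∧ ∃ p₀ : ℕ, ∀ (p : ℕ) [Fact p.Prime], p₀ ≤ p →
      ∀ (d : ℕ) (P : Fin n → Fin k → (ZMod p)[X]) (b : Fin k → ZMod p), (d : ℝ) ≤ (p : ℝ) ^ (δ / (50 * n)) →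
      (∀ i j, (P i j).natDegree ≤ d) →
      (∀ i, ∀ (t : Fin k → ZMod p) (a c : ZMod p), ∑ j, C (t j) * P i j = C a * X + C c → t = 0) →
      ∀ (M : Fin n → ℤ) (L : Fin n → ℕ), (∀ j, (p : ℝ) ^ δ ≤ L j ∧ L j ≤ p) →
        (p : ℝ) ^ ((n : ℝ) / 2 + k + δ) ≤ ∏ j, (L j : ℝ) →
      ∀ (c : Fin n → ℤ) (c₀ : ℤ), Primitive ((p : ℝ) ^ (δ / 16)) c → ∀ H : ℕ, 1 ≤ H →
        (Set.ncard {z ∈ Solutions P b M L | SmallDefect H (∑ j, c j * z j + c₀)} : ℝ) ≤
          K * H * (Set.ncard (Solutions P b M L) / Real.log p ^ 3) := by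
  obtain ⟨K, hK, p₀, h⟩ := Run7.h914.IFm.sys_bad SmallDefect (fun H : ℕ => (H : ℝ)) 3 bd n k hn δ hδ hδ1
  refine ⟨K, hK, p₀, ?_⟩
  intro p _ hp d P b hd hP hind M L hL hV c c₀ hc H hH
  obtain ⟨u, hu, hu2⟩ := hc
  have key := h p hp d P b hd hP hind M L hL hV c u c₀ hu hu2 H hH
  have e : {z ∈ Solutions P b M L | SmallDefect H (∑ j, c j * z j + c₀)} =
      {z : Fin n → ℤ | (∀ j, M j < z j ∧ z j ≤ M j + L j) ∧
        (∀ j, ∑ i, (P i j).eval (z i : ZMod p) = b j) ∧ SmallDefect H (∑ j, c j * z j + c₀)} := by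
    ext z
    simp only [Solutions, Set.mem_setOf_eq, and_assoc]
  rw [e]
  exact key

/-- **The defect of the recursion at linear forms in the solutions of systems modulo primes.** -/
theorem result (n : ℕ) (δ : ℝ) (hδ : 0 < δ) (hδ1 : δ ≤ 1) :
    (∀ k : ℕ, 2 * k < n → ∃ K : ℝ, 0 < K ∧ ∃ p₀ : ℕ, ∀ (p : ℕ) [Fact p.Prime], p₀ ≤ p →
      ∀ (d : ℕ) (P : Fin n → Fin k → (ZMod p)[X]) (b : Fin k → ZMod p), (d : ℝ) ≤ (p : ℝ) ^ (δ / (50 * n)) →
      (∀ i j, (P i j).natDegree ≤ d) →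
      (∀ i, ∀ (t : Fin k → ZMod p) (a c : ZMod p), ∑ j, C (t j) * P i j = C a * X + C c → t = 0) →
      ∀ (M : Fin n → ℤ) (L : Fin n → ℕ), (∀ j, (p : ℝ) ^ δ ≤ L j ∧ L j ≤ p) →
        (p : ℝ) ^ ((n : ℝ) / 2 + k + δ) ≤ ∏ j, (L j : ℝ) →
      ∀ (c : Fin n → ℤ) (c₀ : ℤ), Primitive ((p : ℝ) ^ (δ / 16)) c → ∀ H : ℕ, 1 ≤ H →
        (Set.ncard {z ∈ Solutions P b M L | SmallDefect H (∑ j, c j * z j + c₀)} : ℝ) ≤
          K * H * (Set.ncard (Solutions P b M L) / Real.log p ^ 3)) ∧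
    (3 ≤ n → ∀ m : ℕ, 2 ≤ m → ∃ K : ℝ, 0 < K ∧ ∃ p₀ : ℕ, ∀ (p : ℕ) [Fact p.Prime], p₀ ≤ p →
      ∀ (b : ZMod p) (M : Fin n → ℤ) (L : ℕ), (p : ℝ) ^ (1 / 2 + 1 / (n : ℝ) + δ) ≤ L → L ≤ p →
      ∀ (c : Fin n → ℤ) (c₀ : ℤ), Primitive ((p : ℝ) ^ (δ / 16)) c → ∀ H : ℕ, 1 ≤ H →
        (Set.ncard {z : Fin n → ℤ | (∀ i, M i < z i ∧ z i ≤ M i + L) ∧ ∑ i, (z i : ZMod p) ^ m = b ∧
          SmallDefect H (∑ j, c j * z j + c₀)} : ℝ) ≤
          K * H * (Set.ncard {z : Fin n → ℤ | (∀ i, M i < z i ∧ z i ≤ M i + L) ∧ ∑ i, (z i : ZMod p) ^ m = b} /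
            Real.log p ^ 3)) := by
  refine ⟨fun k hk => main n k hk δ hδ hδ1, fun hn m hm => ?_⟩
  obtain ⟨K, hK, p₀, h⟩ := main n 1 (by omega) δ hδ hδ1
  have hn0 : (0 : ℝ) < n := by exact_mod_cast (by omega : 0 < n)
  obtain ⟨p₁, h1⟩ := Run7.h914.ev_const (δ / (50 * n)) m (by positivity)
  refine ⟨K, hK, max p₀ p₁, ?_⟩
  intro p _ hpp b M L hL hLp c c₀ hc H hH
  have hp : p.Prime := Fact.out
  have hp0 : (0 : ℝ) < p := by exact_mod_cast hp.pos
  have hp1 : (1 : ℝ) ≤ p := by exact_mod_cast hp.one_lt.le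
  have key := h p ((le_max_left _ _).trans hpp) m (fun _ _ => X ^ m) (fun _ => b)
    (h1 p ((le_max_right _ _).trans hpp)) (fun _ _ => natDegree_X_pow_le m) (by
      intro _ t a c h2
      rw [Fin.sum_univ_one] at h2
      have h3 := congrArg (fun q => q.coeff m) h2
      simp only [coeff_C_mul, coeff_X_pow, coeff_add, coeff_X, coeff_C] at h3
      rw [if_pos trivial, if_neg (by omega), if_neg (by omega), mul_one, mul_zero, add_zero] at h3
      funext j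
      rw [Subsingleton.elim j 0]
      exact h3) M (fun _ => L) (fun _ => ⟨by
        refine le_trans (Real.rpow_le_rpow_of_exponent_le hp1 ?_) hL
        have : 0 ≤ 1 / (n : ℝ) := by positivity
        linarith, hLp⟩) (by
      rw [Finset.prod_const, Finset.card_univ, Fintype.card_fin]
      have h2 : ((p : ℝ) ^ (1 / 2 + 1 / (n : ℝ) + δ)) ^ n ≤ (L : ℝ) ^ n :=
        pow_le_pow_left₀ (Real.rpow_nonneg hp0.le _) hL n
      refine le_trans ?_ h2
      rw [← Real.rpow_natCast _ n, ← Real.rpow_mul hp0.le]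
      apply Real.rpow_le_rpow_of_exponent_le hp1
      have h3 : (1 / 2 + 1 / (n : ℝ) + δ) * n = n / 2 + 1 + δ * n := by field_simp
      have h4 : (3 : ℝ) ≤ n := by exact_mod_cast hn
      rw [h3]
      push_cast
      nlinarith) c c₀ hc H hH
  have e1 : {z ∈ Solutions (fun (_ : Fin n) (_ : Fin 1) => (X ^ m : (ZMod p)[X])) (fun _ => b) M (fun _ => L) |
      SmallDefect H (∑ j, c j * z j + c₀)} =
      {z : Fin n → ℤ | (∀ i, M i < z i ∧ z i ≤ M i + L) ∧ ∑ i, (z i : ZMod p) ^ m = b ∧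
          SmallDefect H (∑ j, c j * z j + c₀)} := by
    ext z
    simp only [Solutions, Set.mem_setOf_eq, and_assoc, Fin.forall_fin_one, eval_pow, eval_X]
  have e2 : Solutions (fun (_ : Fin n) (_ : Fin 1) => (X ^ m : (ZMod p)[X])) (fun _ => b) M (fun _ => L) =
      {z : Fin n → ℤ | (∀ i, M i < z i ∧ z i ≤ M i + L) ∧ ∑ i, (z i : ZMod p) ^ m = b} := by
    ext z
    simp only [Solutions, Set.mem_setOf_eq, Fin.forall_fin_one, eval_pow, eval_X]
  rw [e1, e2] at key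
  exact key

end Pool.Agent.Results.MP_3f8e47_nt.SystemsModP
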