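import Pool.Agent.Run7.h672.WT.W
import Pool.Agent.R105.GD.Tri

/-!
# The gcd recursion for prime triples: the typical size of `N - f(N)` for random integers written by independent random words

`a N` is the recursion `a_N` of the problem and `f N = f(N)` its least zero. The definitions `len`, `Words`, `cat`, `noRest`,
`cutWord`, `WordLaw` are in `Pool.Agent.Run7.h672.CC.Defs`.

Method: by the starting result `LongLife`, `f(N) + 1, f(N) + 3, f(N) + 7` are prime as soon as `N ≥ 2100` and `f(N) ≥ 4 N / 5`. The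
exponential sums of a random integer written by random words are small at all the fractions with denominators up to
`exp (δ √k)` without small prime factors (`Pool.Agent.Run7.h672.CC`, by a strong renewal theorem and the exchange of two
words which do not commute), hence the fundamental lemma of the sieve applies with all the primes up to `exp (δ √k)`
(`Pool.Agent.Run7.h672.WT`).
-/

set_option autoImplicit false

open Finset
open Pool.Agent.Run7.h672.CC
open Pool.Agent.Run7.h672.WT

namespace Pool.Agent.Results.MP_3f8e47_nt.TypicalDefectWords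

/-- the 3-periodic sequence `b(n)` of the problem: `2, 6, 0, 2, 6, 0, …` (indexed from 1) -/
def per (n : ℕ) : ℕ := if n % 3 = 1 then 2 else if n % 3 = 2 then 6 else 0

/-- the recursion `a_N`: `a_N(1) = N - 6`, `a_N(n) = a_N(n-1) - gcd(a_N(n-1), n + b(n))` for
`n ≥ 2` (and `a_N(0) = 0`, not used) -/
noncomputable def a (N : ℕ) : ℕ → ℤ
  | 0 => 0
  | 1 => (N : ℤ) - 6
  | (n + 2) => a N (n + 1) - ((Int.gcd (a N (n + 1)) ((n + 2 + per (n + 2) : ℕ) : ℤ) : ℕ) : ℤ)

/-- `f(N)`: the least `n ≥ 1` with `a_N(n) = 0` -/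
noncomputable def f (N : ℕ) : ℕ := sInf {n : ℕ | 1 ≤ n ∧ a N n = 0}

lemma a_eq (N n : ℕ) : a N n = Pool.Agent.R105.GD.aa N n := by
  induction n using Nat.strong_induction_on with
  | _ n ih =>
    match n with
    | 0 => rw [a, Pool.Agent.R105.GD.aa]
    | 1 => rw [a, Pool.Agent.R105.GD.aa]
    | n + 2 =>
      rw [a, Pool.Agent.R105.GD.aa, ih (n + 1) (by omega)]
      rfl

lemma f_eq (N : ℕ) : f N = Pool.Agent.R105.GD.ff N := by
  unfold f Pool.Agent.R105.GD.ff
  simp only [a_eq]

open Classical in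
/-- Let `q` be the law of a random word in base `b` (`Words b q`: any language, finite or infinite, lengths with an
exponential moment and without a common divisor, and two words which do not commute), and `κ ≥ 1`. There is a constant `C` such
that for all `k ≥ 1`, for every random integer `v < b ^ k` whose `k` digits are written by independent random words with the law
`q`, conditioned on the total length `k`, or cut after `k` digits (`WordLaw b q k p`), for EVERY integer `c ≥ 0` and every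
real `t ≥ 1`: the probability that `N = c + κ v` satisfies `N ≥ 6` and `N - f(N) ≤ t` is at most `C t / k ^ (3/2)`. -/
theorem result (b : ℕ) (q : ℕ → ℕ → ℝ) (hq : Words b q) (κ : ℕ) (hκ : 1 ≤ κ) :
    ∃ C : ℝ, 0 < C ∧ ∀ k : ℕ, 1 ≤ k → ∀ p : ℕ → ℝ, WordLaw b q k p → ∀ (c : ℕ) (t : ℝ), 1 ≤ t →
      ∑ v ∈ range (b ^ k), (if 6 ≤ c + κ * v ∧ ((c + κ * v : ℕ) : ℝ) - f (c + κ * v) ≤ t then p v else 0) ≤
        C * t / (k : ℝ) ^ (3 / 2 : ℝ) := by
  obtain ⟨L, T, hcls⟩ := Pool.Agent.Run7.h672.XC.word_rcls hq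
  obtain ⟨C, hC, k1, h1⟩ := law_forms hcls 3 7 κ hκ
  obtain ⟨k2, h2⟩ := word_small hq κ hκ 1
  obtain ⟨k3, h3⟩ := ev_exp 3 2112 (by norm_num)
  obtain ⟨k₀, hk₀⟩ : ∃ k₀, k₀ = max (max k1 k2) k3 := ⟨_, rfl⟩
  refine ⟨2 * C + 2 + (k₀ : ℝ) ^ (3 / 2 : ℝ), by positivity, fun k hk p hp c t ht => ?_⟩
  have hk0 : (0 : ℝ) < k := by exact_mod_cast (by omega : 0 < k)
  have hk1 : (1 : ℝ) ≤ k := by exact_mod_cast hk
  obtain ⟨s, hs⟩ : ∃ s, s = Real.sqrt k := ⟨_, rfl⟩
  have hss : s * s = k := by rw [hs]; exact Real.mul_self_sqrt hk0.le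
  have hs1 : 1 ≤ s := by rw [hs]; exact Real.one_le_sqrt.2 hk1
  have hs0 : 0 < s := by linarith
  have hs3 : (k : ℝ) ^ (3 / 2 : ℝ) = s ^ 3 := by
    rw [hs, Real.sqrt_eq_rpow, ← Real.rpow_natCast, ← Real.rpow_mul hk0.le]
    norm_num
  have hp0 : ∀ v, 0 ≤ p v := law_nonneg hq hp
  have htot : ∑ v ∈ range (b ^ k), (if 6 ≤ c + κ * v ∧ ((c + κ * v : ℕ) : ℝ) - f (c + κ * v) ≤ t then p v else 0) ≤ 1 := by
    rw [← law_sum hp]
    apply sum_le_sum
    intro v _
    split_ifs
    · exact le_rfl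
    · exact hp0 v
  have hk₀0 : 0 ≤ (k₀ : ℝ) ^ (3 / 2 : ℝ) := by positivity
  by_cases hbig : k < k₀
  · refine htot.trans ?_
    rw [le_div_iff₀ (by positivity), one_mul]
    have e1 : (k : ℝ) ^ (3 / 2 : ℝ) ≤ (k₀ : ℝ) ^ (3 / 2 : ℝ) :=
      Real.rpow_le_rpow hk0.le (by exact_mod_cast hbig.le) (by norm_num)
    nlinarith
  push Not at hbig
  rw [hs3]
  have hs30 : 0 < s ^ 3 := by positivity
  by_cases hts : s ^ 3 < t
  · refine htot.trans ?_
    rw [le_div_iff₀ hs30, one_mul]
    nlinarith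
  push Not at hts
  obtain ⟨g1, g2⟩ := h3 k (by omega)
  rw [← hs] at g1 g2
  obtain ⟨H, hH⟩ : ∃ H, H = ⌊t⌋₊ := ⟨_, rfl⟩
  have hHt : (H : ℝ) ≤ t := by rw [hH]; exact Nat.floor_le (by linarith)
  have h13 : 1 ≤ s ^ 3 := one_le_pow₀ hs1
  obtain ⟨A, hA⟩ : ∃ A : ℕ → Finset ℤ, A = fun h : ℕ => ({(c : ℤ) - h + 1, (c : ℤ) - h + 3, (c : ℤ) - h + 7} : Finset ℤ) := ⟨_, rfl⟩
  obtain ⟨Es, hEs⟩ : ∃ Es, Es = (range (b ^ k)).filter (fun v => 1 ≤ c + κ * v ∧ ((c + κ * v : ℕ) : ℝ) ≤ 2 * Real.exp s) := ⟨_, rfl⟩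
  obtain ⟨Eh, hEh⟩ : ∃ Eh : ℕ → Finset ℕ, Eh = fun h => (range (b ^ k)).filter (fun v =>
      2 * Real.exp s < ((c + κ * v : ℕ) : ℝ) ∧ ∀ j ∈ A h, ((κ : ℤ) * v + j).toNat.Prime) := ⟨_, rfl⟩
  have hpt : ∀ v ∈ range (b ^ k), (if 6 ≤ c + κ * v ∧ ((c + κ * v : ℕ) : ℝ) - f (c + κ * v) ≤ t then p v else 0) ≤
      (if v ∈ Es then p v else 0) + ∑ h ∈ range (H + 1), (if v ∈ Eh h then p v else 0) := by
    intro v hv
    have hn1 : ∀ h, (0 : ℝ) ≤ if v ∈ Eh h then p v else 0 := by
      intro h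
      split_ifs
      · exact hp0 v
      · exact le_rfl
    have hn2 : (0 : ℝ) ≤ ∑ h ∈ range (H + 1), (if v ∈ Eh h then p v else 0) := sum_nonneg fun h _ => hn1 h
    have hn3 : (0 : ℝ) ≤ if v ∈ Es then p v else 0 := by
      split_ifs
      · exact hp0 v
      · exact le_rfl
    by_cases hc : 6 ≤ c + κ * v ∧ ((c + κ * v : ℕ) : ℝ) - f (c + κ * v) ≤ t
    · rw [if_pos hc]
      obtain ⟨c1, c2⟩ := hc
      by_cases hsm : ((c + κ * v : ℕ) : ℝ) ≤ 2 * Real.exp s
      · have : v ∈ Es := by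
          rw [hEs, mem_filter]
          exact ⟨hv, by omega, hsm⟩
        rw [if_pos this]
        linarith
      · push Not at hsm
        obtain ⟨N, hN⟩ : ∃ N, N = c + κ * v := ⟨_, rfl⟩
        rw [← hN] at c1 c2 hsm
        have hfle : f N ≤ N := by rw [f_eq]; exact Pool.Agent.R105.GD.ff_le N c1
        obtain ⟨h, hh⟩ : ∃ h, h = N - f N := ⟨_, rfl⟩
        have hhN : N = f N + h := by omega
        have hht : (h : ℝ) ≤ t := by
          have e : (N : ℝ) = f N + h := by exact_mod_cast hhN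
          linarith
        have hhH : h ≤ H := by rw [hH]; exact Nat.le_floor hht
        have hex : 2112 * s ^ 3 < (N : ℝ) := by
          have := Real.exp_pos s
          linarith
        have e1 : 2100 ≤ N := by
          have : (2100 : ℝ) ≤ N := by linarith
          exact_mod_cast this
        have e2 : 5 * h ≤ N := by
          have : (5 : ℝ) * h ≤ N := by linarith
          exact_mod_cast this
        have hpr := Pool.Agent.R105.GD.ff_primes N e1 (by rw [← f_eq]; omega)
        rw [← f_eq] at hpr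
        have hmem : v ∈ Eh h := by
          rw [hEh]
          simp only
          rw [mem_filter]
          refine ⟨hv, by rw [← hN]; exact hsm, fun j hj => ?_⟩
          rw [hA] at hj
          simp only [mem_insert, mem_singleton] at hj
          have e3 : ((κ : ℤ) * v + (c : ℤ) - h) = (f N : ℤ) := by
            have : ((c + κ * v : ℕ) : ℤ) = ((f N + h : ℕ) : ℤ) := by rw [← hN, ← hhN]
            push_cast at this
            linarith
          rcases hj with rfl | rfl | rfl
          · have : ((κ : ℤ) * v + ((c : ℤ) - h + 1)).toNat = f N + 1 := by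
              have : (κ : ℤ) * v + ((c : ℤ) - h + 1) = ((f N + 1 : ℕ) : ℤ) := by push_cast; linarith
              rw [this, Int.toNat_natCast]
            rw [this]
            exact hpr.1
          · have : ((κ : ℤ) * v + ((c : ℤ) - h + 3)).toNat = f N + 3 := by
              have : (κ : ℤ) * v + ((c : ℤ) - h + 3) = ((f N + 3 : ℕ) : ℤ) := by push_cast; linarith
              rw [this, Int.toNat_natCast]
            rw [this]
            exact hpr.2.1
          · have : ((κ : ℤ) * v + ((c : ℤ) - h + 7)).toNat = f N + 7 := by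
              have : (κ : ℤ) * v + ((c : ℤ) - h + 7) = ((f N + 7 : ℕ) : ℤ) := by push_cast; linarith
              rw [this, Int.toNat_natCast]
            rw [this]
            exact hpr.2.2
        have hsg : p v ≤ ∑ h ∈ range (H + 1), (if v ∈ Eh h then p v else 0) := by
          refine le_trans (le_of_eq ?_) (single_le_sum (fun h _ => hn1 h) (mem_range.2 (by omega : h < H + 1)))
          rw [if_pos hmem]
        linarith
    · rw [if_neg hc]
      linarith
  have hsum := sum_le_sum hpt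
  rw [sum_add_distrib, sum_comm] at hsum
  have hS : ∑ v ∈ range (b ^ k), (if v ∈ Es then p v else 0) ≤ 1 / s ^ 3 := by
    rw [sum_ite_mem]
    refine (h2 k (by omega) p hp c (range (b ^ k) ∩ Es) (fun v hv => ?_)).trans ?_
    · obtain ⟨q1, q2⟩ := mem_inter.1 hv
      rw [hEs, mem_filter] at q2
      rw [← hs]
      exact ⟨mem_range.1 q1, q2.2⟩
    · apply one_div_le_one_div_of_le hs30
      rw [← hss]
      calc s ^ 3 ≤ s ^ 4 := pow_le_pow_right₀ hs1 (by norm_num)
        _ = (s * s) ^ (1 + 1) := by ring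
  have hh : ∀ h ∈ range (H + 1), ∑ v ∈ range (b ^ k), (if v ∈ Eh h then p v else 0) ≤ C / s ^ 3 := by
    intro h hhr
    have hhH : (h : ℝ) ≤ t := by
      have : (h : ℝ) ≤ H := by exact_mod_cast Nat.lt_succ_iff.1 (mem_range.1 hhr)
      linarith
    rw [sum_ite_mem]
    have h4 := h1 k (by omega) p hp (A h) (by
      rw [hA]
      simp only
      rw [card_eq_three]
      exact ⟨_, _, _, by omega, by omega, by omega, rfl⟩) ∅ (by
      intro q _ hq7 _ j hj j' hj' hd
      rw [hA] at hj hj'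
      simp only [mem_insert, mem_singleton] at hj hj'
      by_contra hne
      have hle := Int.le_of_dvd (a := (q : ℤ)) (b := |j - j'|) (abs_pos.2 (sub_ne_zero.2 hne)) ((dvd_abs _ _).2 hd)
      have : |j - j'| ≤ 6 := by
        rw [abs_le]
        rcases hj with rfl | rfl | rfl <;> rcases hj' with rfl | rfl | rfl <;> constructor <;> omega
      omega) (range (b ^ k) ∩ Eh h) (by
      intro v hv
      obtain ⟨q1, q2⟩ := mem_inter.1 hv
      rw [hEh] at q2
      simp only at q2
      rw [mem_filter] at q2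
      refine ⟨mem_range.1 q1, fun j hj => ⟨q2.2.2 j hj, ?_⟩⟩
      rw [← hs]
      have hjc : (c : ℤ) - h + 1 ≤ j := by
        rw [hA] at hj
        simp only [mem_insert, mem_singleton] at hj
        rcases hj with rfl | rfl | rfl <;> omega
      have hjr : (c : ℝ) - h + 1 ≤ j := by exact_mod_cast hjc
      have q3 := q2.2.1
      push_cast at q3 ⊢
      linarith)
    rw [← hs] at h4
    refine h4.trans (le_of_eq ?_)
    rw [sum_empty, mul_zero, Real.exp_zero, mul_one]
  have hS2 := sum_le_sum hh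
  rw [sum_const, card_range, nsmul_eq_mul] at hS2
  have hH1 : ((H + 1 : ℕ) : ℝ) ≤ 2 * t := by push_cast; linarith
  have h5 : ((H + 1 : ℕ) : ℝ) * (C / s ^ 3) ≤ 2 * t * (C / s ^ 3) := mul_le_mul_of_nonneg_right hH1 (by positivity)
  have h6 : (2 * C + 2 + (k₀ : ℝ) ^ (3 / 2 : ℝ)) * t / s ^ 3 = 2 * t * (C / s ^ 3) + (2 + (k₀ : ℝ) ^ (3 / 2 : ℝ)) * t * (1 / s ^ 3) := by
    ring
  rw [h6]
  have h7 : 1 / s ^ 3 ≤ (2 + (k₀ : ℝ) ^ (3 / 2 : ℝ)) * t * (1 / s ^ 3) := by
    have : (1 : ℝ) ≤ (2 + (k₀ : ℝ) ^ (3 / 2 : ℝ)) * t := by nlinarith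
    have h8 : (0 : ℝ) ≤ 1 / s ^ 3 := by positivity
    nlinarith
  linarith

end Pool.Agent.Results.MP_3f8e47_nt.TypicalDefectWords
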